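import Pool.Agent.helper62.VQ.SpecE
import Pool.Agent.helper58.RS.GFD
import Pool.Agent.helper62.RS.GLC
import Pool.Agent.helper83.RS.GLI
import Pool.Agent.helper9.RS.GRI
import Pool.Agent.helper92.RS.GMG

/-!
# Row vqe:HLI (MP_07c750_an): functions on the surface as test functions
-/

set_option autoImplicit false

open scoped MatrixGroups ContDiff Topology UpperHalfPlane
open UpperHalfPlane MeasureTheory Filter Set

namespace Pool.Agent.VQE

open Pool.Agent.RS

theorem HLI_dist (D : SL(2, ℝ)) : dist (D • I) I ≤ 4 * nm D := by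
  obtain ⟨a, ha⟩ : ∃ a : ℝ, a = D.1 0 0 := ⟨_, rfl⟩
  obtain ⟨b, hb⟩ : ∃ b : ℝ, b = D.1 0 1 := ⟨_, rfl⟩
  obtain ⟨c, hc⟩ : ∃ c : ℝ, c = D.1 1 0 := ⟨_, rfl⟩
  obtain ⟨d, hd⟩ : ∃ d : ℝ, d = D.1 1 1 := ⟨_, rfl⟩
  have hdet : a * d - b * c = 1 := by
    have h1 := D.2
    rw [Matrix.det_fin_two] at h1
    rw [ha, hb, hc, hd]
    exact h1
  obtain ⟨w, hw⟩ : ∃ w : ℂ, w = (c : ℂ) * Complex.I + d := ⟨_, rfl⟩
  have hwn : Complex.normSq w = c ^ 2 + d ^ 2 := by
    rw [hw, Complex.normSq_apply]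
    simp
    ring
  have hwp : 0 < Complex.normSq w := by
    rw [hwn]
    by_contra h
    push Not at h
    have h1 : c = 0 := by nlinarith [sq_nonneg c, sq_nonneg d]
    have h2 : d = 0 := by nlinarith [sq_nonneg c, sq_nonneg d]
    rw [h1, h2] at hdet
    simp at hdet
  have hw0 : w ≠ 0 := by
    intro h
    rw [h, map_zero] at hwp
    exact lt_irrefl _ hwp
  have hz : ((D • I : ℍ) : ℂ) = ((a : ℂ) * Complex.I + b) / w := by
    rw [UpperHalfPlane.coe_specialLinearGroup_apply, hw, ha, hb, hc, hd]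
    rfl
  have him : (D • I : ℍ).im = 1 / Complex.normSq w := by
    have h1 : (D • I : ℍ).im = (((D • I : ℍ) : ℂ)).im := rfl
    rw [h1, hz, Complex.div_im]
    have e1 : ((a : ℂ) * Complex.I + b).im = a := by simp
    have e2 : ((a : ℂ) * Complex.I + b).re = b := by simp
    have e3 : w.re = d := by rw [hw]; simp
    have e4 : w.im = c := by rw [hw]; simp
    rw [e1, e2, e3, e4, ← sub_div, hdet]
  have hI : (I : ℍ).im = 1 := by simp
  have hIc : ((I : ℍ) : ℂ) = Complex.I := by simp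
  have hnw : 0 < ‖w‖ := norm_pos_iff.2 hw0
  have hns : Complex.normSq w = ‖w‖ ^ 2 := Complex.normSq_eq_norm_sq w
  have hd1 : dist (((D • I : ℍ) : ℂ)) ((I : ℍ) : ℂ) = ‖(((b + c : ℝ) : ℂ) + ((a - d : ℝ) : ℂ) * Complex.I)‖ / ‖w‖ := by
    rw [hz, hIc, Complex.dist_eq, ← norm_div]
    congr 1
    rw [eq_div_iff hw0, sub_mul, div_mul_cancel₀ _ hw0, hw]
    push_cast
    have h2 : Complex.I * ((c : ℂ) * Complex.I + d) = -c + d * Complex.I := by
      have := Complex.I_mul_I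
      linear_combination (c : ℂ) * this
    rw [h2]
    ring
  have hsq : √((D • I : ℍ).im * (I : ℍ).im) = 1 / ‖w‖ := by
    rw [him, hI, mul_one, hns, Real.sqrt_div zero_le_one, Real.sqrt_one, Real.sqrt_sq hnw.le]
  have hsinh := UpperHalfPlane.sinh_half_dist (D • I) I
  rw [hd1, hsq] at hsinh
  have h3 : ‖(((b + c : ℝ) : ℂ) + ((a - d : ℝ) : ℂ) * Complex.I)‖ ≤ 4 * nm D := by
    have e1 : |a - 1| ≤ nm D := by rw [ha]; exact le_max_of_le_left (le_max_left _ _)
    have e2 : |b| ≤ nm D := by rw [hb]; exact le_max_of_le_left (le_max_right _ _)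
    have e3 : |c| ≤ nm D := by rw [hc]; exact le_max_of_le_right (le_max_left _ _)
    have e4 : |d - 1| ≤ nm D := by rw [hd]; exact le_max_of_le_right (le_max_right _ _)
    have e5 := norm_add_le ((b + c : ℝ) : ℂ) (((a - d : ℝ) : ℂ) * Complex.I)
    rw [norm_mul, Complex.norm_I, mul_one, Complex.norm_real, Complex.norm_real, Real.norm_eq_abs, Real.norm_eq_abs] at e5
    have e6 : |b + c| ≤ |b| + |c| := abs_add_le b c
    have e7 : |a - d| ≤ |a - 1| + |d - 1| := by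
      have h := abs_sub (a - 1) (d - 1)
      have h8 : a - 1 - (d - 1) = a - d := by ring
      rw [h8] at h
      exact h
    linarith
  have h4 : ‖(((b + c : ℝ) : ℂ) + ((a - d : ℝ) : ℂ) * Complex.I)‖ / ‖w‖ / (2 * (1 / ‖w‖)) =
      ‖(((b + c : ℝ) : ℂ) + ((a - d : ℝ) : ℂ) * Complex.I)‖ / 2 := by
    field_simp
  rw [h4] at hsinh
  have h5 : dist (D • I) I / 2 ≤ Real.sinh (dist (D • I) I / 2) := Real.self_le_sinh_iff.2 (by positivity)
  rw [hsinh] at h5
  linarith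

theorem HLI_proof (h1 : NMB_stmt) : HLI_stmt := by
  intro Γ F k hΓ hF hk hk1 hkl
  have hcont : Continuous fun g : SL(2, ℝ) => g • I := by fun_prop
  refine ⟨⟨hk.1.comp hcont, ?_, ?_, ?_⟩, ?_⟩
  · intro γ g
    have h2 : (((γ : SL(2, ℝ)) * g) • I : ℍ) = γ • (g • I) := by
      rw [mul_smul]
      rfl
    show k (((γ : SL(2, ℝ)) * g) • I) = k (g • I)
    rw [h2]
    exact hk.2 γ _
  · intro g
    rw [abs_le]
    have := hk1 (g • I)
    constructor <;> linarith
  · intro g D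
    have h2 := hkl ((g * D) • I) (g • I)
    rw [mul_smul, dist_smul] at h2
    have h3 := HLI_dist D
    have h4 := h1.1 D
    show |k ((g * D) • I) - k (g • I)| ≤ 8 * nm D
    rw [mul_smul]
    linarith
  · have hLC : GLC_stmt := GLC
    have hMG : GMG_stmt := GMG hLC
    have hLI : GLI_stmt := GLI hLC hMG
    have hRI : GRI_stmt := GRI hLC hMG hLI
    obtain ⟨⟨-, h2, -, -⟩, h3⟩ := GFD hLC hMG hLI hRI Γ F hΓ hF
    unfold mnG
    rw [(h3 ℝ).2.1 k hk.1, h2]

end Pool.Agent.VQE
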